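import Pool.Agent.MNV.Stmts

/-!
# Squad MNV, row LDT: a configuration from a torsion point of large degree over an extension
-/

set_option autoImplicit false

namespace Pool.Agent.MNV.H70

open Polynomial NumberField Pool.Agent.MNT Pool.Agent.MNU Pool.Agent.MNV

theorem ldt (hLDC : LdcStmt) : LdtStmt := by
  intro g K _ _ C hC
  obtain ⟨F, L, _, _, _, _, _, _, _, hst, f, α, β, γ, δ, C', x, y, hodd, hC', hy, hne, hdeg, htor⟩ :=
    hC
  obtain ⟨e, he, heq⟩ := hodd.eq
  have hmod : IsOddModel g f C' (algebraMap K L α) (algebraMap K L β) (algebraMap K L γ)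
      (algebraMap K L δ) := by
    refine ⟨hodd.deg_le, ?_, ?_, algebraMap K L e, ?_, ?_⟩
    · rw [hC', natDegree_map, hodd.deg_Y]
    · have h1 : algebraMap K L α * algebraMap K L δ - algebraMap K L β * algebraMap K L γ =
          algebraMap K L (α * δ - β * γ) := by
        simp only [map_sub, map_mul]
      rw [h1]
      exact fun h => hodd.det ((map_eq_zero _).1 h)
    · exact fun h => he ((map_eq_zero _).1 h)
    · rw [hC', heq, Polynomial.map_mul, Polynomial.map_sum, mob, map_C]
      congr 1
      refine Finset.sum_congr rfl fun i _ => ?_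
      rw [Polynomial.map_mul, Polynomial.map_mul, Polynomial.map_pow, Polynomial.map_pow,
        Polynomial.map_add, Polynomial.map_add, Polynomial.map_mul, Polynomial.map_mul, map_X,
        map_C, map_C, map_C, map_C, map_C, coeff_map, IsScalarTower.algebraMap_apply F K L]
  obtain ⟨hd, E, _, _, _, e', θ, z, hfe, hcfg⟩ := hLDC g F L f C' _ _ _ _ hmod x y hy hne hdeg htor
  refine ⟨hodd.deg_Y, E, inferInstance, inferInstance,
    ((algebraMap L E).comp (algebraMap K L)).toAlgebra, e', θ, z, ?_, hcfg⟩
  have h1 : C.f.map ((algebraMap L E).comp (algebraMap K L)) = C'.f.map (algebraMap L E) := by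
    rw [hC', Polynomial.map_map]
  exact h1.trans hfe

end Pool.Agent.MNV.H70
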