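import Pool.Agent.MNV.Stmts

set_option autoImplicit false

/-!
# Squad MNV, row RFN: finiteness
-/

namespace Pool.Agent.MNV.H70

open Pool.Agent.MNT Pool.Agent.MNU Pool.Agent.MNV

theorem one_le_HH (g : ℕ) : 1 ≤ HH g := by
  unfold HH
  exact Real.one_le_exp (by positivity)

theorem rcfg_inj {g : ℕ} {K : Type} [Field K] [NumberField K] {e : K}
    {θ : Fin (2 * g + 1) → K} (h : RCfg g K e θ) : Function.Injective θ := by
  obtain ⟨L, _, _, _, x, hc⟩ := h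
  intro i j hij
  have h1 := @hc.inj (Sum.inl i) (Sum.inl j) (by simp [hij])
  exact Sum.inl_injective h1

open Classical in
/-- Row RFN. -/
theorem rfn (rdh : RdhStmt) (ncs : BHT.NCSStmt) : RfnStmt := by
  intro g hg d
  have hH : 1 ≤ HH g := one_le_HH g
  obtain ⟨F, hF⟩ := ncs (Fin (2 * g + 1) × Fin (2 * g + 1)) d (HH g ^ d)
  obtain ⟨p₀, hp₀⟩ : ∃ p₀ : Fin (2 * g + 1), p₀ = ⟨0, by omega⟩ := ⟨_, rfl⟩
  refine ⟨F.image fun Y p => Y (p, p₀), ?_⟩
  intro K _ _ hd e θ hC φ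
  have hinj := rcfg_inj hC
  have hx0 : (fun pq : Fin (2 * g + 1) × Fin (2 * g + 1) => θ pq.1 - θ pq.2) ≠ 0 := by
    intro h
    have h2 := congrFun h (⟨0, by omega⟩, ⟨1, by omega⟩)
    have h3 := hinj (sub_eq_zero.1 h2)
    exact absurd h3 (by simp)
  have hh : Height.mulHeight (fun pq : Fin (2 * g + 1) × Fin (2 * g + 1) => θ pq.1 - θ pq.2) ≤
      HH g ^ d :=
    (rdh g hg K e θ hC).trans (pow_le_pow_right₀ hH hd)
  obtain ⟨Y, hY, μ, hμ, hx⟩ := hF K hd _ hx0 hh φ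
  refine ⟨fun p => Y (p, p₀), Finset.mem_image_of_mem _ hY, μ, φ (θ p₀), hμ, fun p => ?_⟩
  have h4 := hx (p, p₀)
  simp only [map_sub] at h4
  linear_combination h4

end Pool.Agent.MNV.H70
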