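import Pool.Agent.Helper70_MNV.RFN

/-!
# Squad MNV, row RTB: all torsion of the Jacobian, from the roots
-/

set_option autoImplicit false

namespace Pool.Agent.MNV.H70

open Polynomial NumberField
open Pool.Agent.MNT Pool.Agent.MNU Pool.Agent.MNV

theorem rtb (hrdh : RdhStmt) (hgpr : GprStmt) (hprp : PrpStmt) : RtbStmt := by
  classical
  intro g hg d
  let ι : Type := {pq : Fin (2 * g + 1) × Fin (2 * g + 1) // pq.1 ≠ pq.2}
  have i0 : ι := ⟨(0, ⟨1, by omega⟩), by simp [Fin.ext_iff]⟩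
  have hne0 : Nonempty ι := ⟨i0⟩
  obtain ⟨X₀, hX⟩ := hgpr ι d (HH g ^ d)
  refine ⟨2 ^ ((X₀ ^ (2 * d)) ^ (3 * g + 2)) * 2 ^ ((X₀ ^ (2 * d)) ^ (3 * g + 2)), ?_⟩
  intro K _ _ hd e z hC C hCf c hc
  have hinj := rcfg_inj hC
  have hy0 : ∀ i : ι, z i.1.1 - z i.1.2 ≠ 0 := by
    intro i h
    exact i.2 (hinj (sub_eq_zero.mp h))
  have hht : Height.mulHeight (fun i : ι => z i.1.1 - z i.1.2) ≤ HH g ^ d := by
    have h1 := Height.mulHeight_comp_le (Subtype.val : ι → Fin (2 * g + 1) × Fin (2 * g + 1))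
      (fun pq : Fin (2 * g + 1) × Fin (2 * g + 1) => z pq.1 - z pq.2)
    have h2 := hrdh g hg K e z hC
    have h3 : HH g ^ Module.finrank ℚ K ≤ HH g ^ d := pow_le_pow_right₀ (one_le_HH g) hd
    exact (h1.trans h2).trans h3
  obtain ⟨p, q, hp, hq, hp2, hpq, hqX, hval⟩ := hX K hd _ hy0 hht
  have hle : ∀ r : ℕ, r ≤ X₀ → 0 < r → 2 ^ ((r ^ (2 * Module.finrank ℚ K)) ^ (3 * g + 2)) ≤
      2 ^ ((X₀ ^ (2 * d)) ^ (3 * g + 2)) := by
    intro r hr h0
    apply Nat.pow_le_pow_right (by norm_num)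
    apply Nat.pow_le_pow_left
    calc r ^ (2 * Module.finrank ℚ K) ≤ r ^ (2 * d) :=
          Nat.pow_le_pow_right h0 (by omega)
      _ ≤ X₀ ^ (2 * d) := Nat.pow_le_pow_left hr _
  obtain ⟨m, a, h1, h2, h3⟩ := hprp g (by omega) K C e z hCf p hp hp2
    (fun w hw i j i' j' hij hij' => hval w (Or.inl hw)
      ⟨(i, j), hij⟩ ⟨(i', j'), hij'⟩) c hc
  obtain ⟨m', a', h1', h2', h3'⟩ := hprp g (by omega) K C e z hCf q hq
    (by omega)
    (fun w hw i j i' j' hij hij' => hval w (Or.inr hw)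
      ⟨(i, j), hij⟩ ⟨(i', j'), hij'⟩) c hc
  have hdvd : p ^ a ∣ m' := by
    have h4 : p ^ a ∣ m' * q ^ a' := by rw [← h1', h1]; exact dvd_mul_left _ _
    have hcop : Nat.Coprime (p ^ a) (q ^ a') :=
      Nat.Coprime.pow _ _ ((Nat.coprime_primes hp hq).mpr (by omega))
    exact hcop.dvd_of_dvd_mul_right h4
  have hle' : p ^ a ≤ m' := Nat.le_of_dvd (by omega) hdvd
  rw [h1]
  exact Nat.mul_le_mul (h3.trans (hle p (by omega) hp.pos))
    (hle'.trans (h3'.trans (hle q hqX hq.pos)))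

end Pool.Agent.MNV.H70
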